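import Mathlib
import Pool.Agent.H.MP_b82347_co.Cyc

namespace Pool.Agent.Results.MP_b82347_co.Refute

open Pool.Agent.H.MP_b82347_co

/-- k-critical graphs -/
def IsCritical {W : Type} (G : SimpleGraph W) (k : ℕ) : Prop :=
  G.chromaticNumber = k ∧ ∀ H : G.Subgraph, H ≠ ⊤ → H.coe.chromaticNumber < k

lemma crit_edge {W : Type} (G : SimpleGraph W) (m : ℕ) (h : IsCritical G (m + 1)) (x y : W)
    (hxy : G.Adj x y) :
    ∃ c : W → Fin m, ∀ a b, G.Adj a b → s(a, b) ≠ s(x, y) → c a ≠ c b := by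
  have hne : (⊤ : G.Subgraph).deleteEdges {s(x, y)} ≠ ⊤ := by
    intro e
    have : ((⊤ : G.Subgraph).deleteEdges {s(x, y)}).Adj x y := by rw [e]; exact hxy
    simp at this
  have h1 := h.2 _ hne
  have h2 : ((⊤ : G.Subgraph).deleteEdges {s(x, y)}).coe.chromaticNumber ≤ (m : ℕ∞) := by
    rw [Nat.cast_add, Nat.cast_one] at h1
    exact Order.le_of_lt_add_one h1
  obtain ⟨c⟩ := SimpleGraph.chromaticNumber_le_iff_colorable.1 h2
  refine ⟨fun v => c ⟨v, by simp⟩, fun a b hab hs => c.valid ?_⟩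
  simpa using ⟨hab, by simpa using hs⟩

lemma crit_not {W : Type} (G : SimpleGraph W) (m : ℕ) (h : IsCritical G (m + 1)) :
    ¬ G.Colorable m := by
  intro hc
  have := hc.chromaticNumber_le
  rw [h.1] at this
  have : m + 1 ≤ m := by exact_mod_cast this
  omega

lemma crit_three {W : Type} (G : SimpleGraph W) (m : ℕ) (hm : 3 ≤ m) (h : IsCritical G (m + 1)) :
    ∃ z w1 w2 w3, G.Adj z w1 ∧ G.Adj z w2 ∧ G.Adj z w3 ∧ w1 ≠ w2 ∧ w1 ≠ w3 ∧ w2 ≠ w3 := by
  classical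
  have hnc := crit_not G m h
  obtain ⟨z, w, hzw⟩ : ∃ z w, G.Adj z w := by
    by_contra c
    push Not at c
    exact hnc ⟨SimpleGraph.Coloring.mk (fun _ => ⟨0, by omega⟩) (fun hab => absurd hab (c _ _))⟩
  by_contra hcon
  push Not at hcon
  obtain ⟨c, hc⟩ := crit_edge G m h z w hzw
  obtain ⟨u, hu⟩ : ∃ u, ∀ v, G.Adj z v → v = w ∨ v = u := by
    by_cases k : ∃ u, G.Adj z u ∧ u ≠ w
    · obtain ⟨u, u1, u2⟩ := k
      refine ⟨u, fun v hv => ?_⟩
      by_cases k : v = w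
      · exact Or.inl k
      · exact Or.inr (hcon z w u v hzw u1 hv u2.symm (Ne.symm k)).symm
    · push Not at k
      exact ⟨w, fun v hv => Or.inl (k v hv)⟩
  obtain ⟨p, hp1, hp2⟩ : ∃ p : Fin m, p ≠ c w ∧ p ≠ c u := by
    have : ({c w, c u} : Finset (Fin m)).card < (Finset.univ : Finset (Fin m)).card := by
      have := Finset.card_le_two (a := c w) (b := c u)
      simp only [Finset.card_univ, Fintype.card_fin]; omega
    obtain ⟨p, -, hp⟩ := Finset.exists_mem_notMem_of_card_lt_card this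
    simp only [Finset.mem_insert, Finset.mem_singleton, not_or] at hp
    exact ⟨p, hp⟩
  refine hnc ⟨SimpleGraph.Coloring.mk (fun v => if v = z then p else c v) ?_⟩
  intro a b hab
  by_cases a1 : a = z
  · subst a1
    rw [if_pos rfl, if_neg hab.ne.symm]
    rcases hu b hab with rfl | rfl
    exacts [hp1, hp2]
  · by_cases a2 : b = z
    · subst a2
      rw [if_pos rfl, if_neg a1]
      rcases hu a hab.symm with rfl | rfl
      exacts [hp1.symm, hp2.symm]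
    · rw [if_neg a1, if_neg a2]
      refine hc a b hab (fun e => ?_)
      rcases Sym2.eq_iff.1 e with k | k
      exacts [a1 k.1, a2 k.2]

theorem result : ∀ l : ℕ, 4 ≤ l → ∀ (V W₁ W₂ : Type) [Finite V] (f₁ : W₁ ↪ V) (f₂ : W₂ ↪ V)
    (G₁ : SimpleGraph W₁) (G₂ : SimpleGraph W₂), IsCritical G₁ 3 → IsCritical G₂ l →
    (G₁.map f₁ ⊔ G₂.map f₂).chromaticNumber ≤ ((3 - 1) * (l - 1) : ℕ) := by
  intro l hl V W₁ W₂ _ f₁ f₂ G₁ G₂ h₁ h₂
  classical
  obtain ⟨m, rfl⟩ : ∃ m, l = m + 1 := ⟨l - 1, by omega⟩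
  obtain ⟨n, g, hg⟩ := exists_cyc G₁ (crit_not G₁ 2 h₁) (crit_edge G₁ 2 h₁)
  have hg' : Cyc (G₁.map f₁).Adj n (fun i => f₁ (g i)) := by
    refine ⟨hg.odd, fun i j => by rw [← hg.inj]; simp, fun a b hab => ?_⟩
    obtain ⟨a, b, hab', rfl, rfl⟩ := (SimpleGraph.map_adj _ _ _ _).1 hab
    obtain ⟨i, hi⟩ := hg.edge a b hab'
    exact ⟨i, by simpa using hi⟩
  obtain ⟨z, w1, w2, w3, b1, b2, b3, d1, d2, d3⟩ := crit_three G₂ m (by omega) h₂
  have hB : ∀ x y, (G₂.map f₂).Adj x y → ∃ c : V → Fin m, ∀ a b, (G₂.map f₂).Adj a b →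
      s(a, b) ≠ s(x, y) → c a ≠ c b := by
    intro x y hxy
    obtain ⟨x, y, hxy', rfl, rfl⟩ := (SimpleGraph.map_adj _ _ _ _).1 hxy
    obtain ⟨c, hc⟩ := crit_edge G₂ m h₂ x y hxy'
    refine ⟨Function.extend f₂ c (fun _ => c x), fun a b hab hs => ?_⟩
    obtain ⟨a, b, hab', rfl, rfl⟩ := (SimpleGraph.map_adj _ _ _ _).1 hab
    rw [f₂.injective.extend_apply, f₂.injective.extend_apply]
    refine hc a b hab' (fun e => hs ?_)
    rcases Sym2.eq_iff.1 e with ⟨rfl, rfl⟩ | ⟨rfl, rfl⟩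
    · rfl
    · exact Sym2.eq_swap
  have ad : ∀ {a b}, G₂.Adj a b → (G₂.map f₂).Adj (f₂ a) (f₂ b) := fun h =>
    (SimpleGraph.map_adj _ _ _ _).2 ⟨_, _, h, rfl, rfl⟩
  obtain ⟨col, hcol⟩ := core (G₁.map f₁).Adj (G₂.map f₂).Adj n _ hg' m (by omega)
    (fun a => (G₁.map f₁).irrefl) (fun a => (G₂.map f₂).irrefl) (fun a b h => h.symm) hB
    (f₂ z) (f₂ w1) (f₂ w2) (f₂ w3) (ad b1) (ad b2) (ad b3) (f₂.injective.ne d1)
    (f₂.injective.ne d2) (f₂.injective.ne d3)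
  have := (SimpleGraph.Coloring.mk (G := G₁.map f₁ ⊔ G₂.map f₂) col
    (fun {a b} hab => hcol a b hab)).colorable
  refine SimpleGraph.chromaticNumber_le_iff_colorable.2 ?_
  simpa [mul_comm] using this

end Pool.Agent.Results.MP_b82347_co.Refute
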